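import Pool.Agent.Helper58.DG3.Base

/-!
# The interface between the rigidity of the net and the threads
-/

set_option autoImplicit false

namespace Pool.Agent.Helper58.DG3

open Pool.Agent.Helper18.RAC

variable {V : Type*}

/-- abscissa of the column line `i`: for `i = 0` the long line number `2`, for `1 ≤ i` the line
through the entry `D (i + 1) 0`, which is over the anchor `P false (2 i + 3)` -/
def gX (X : V → ℝ) (κ : GX → V) (i : ℤ) : ℝ :=
  if i ≤ 0 then X (κ (.v (.P false 4))) else X (κ (.v (.P false (2 * i.toNat + 3))))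

/-- ordinate of the row line `j` -/
def gY (Y : V → ℝ) (κ : GX → V) (j : ℤ) : ℝ :=
  if j ≤ 0 then Y (κ (.v (.P true 4))) else Y (κ (.v (.P true (2 * j.toNat + 3))))

/-- the vertices of the frame and of the net -/
def ZN (κ : GX → V) (π : Par) : Set V :=
  {v | ∃ x : GN, x.ok π ∧ x.nt ∧ v = κ (.v x)}

/-- what the threads need from the net -/
structure Net (H : SimpleGraph V) (X Y : V → ℝ) (E F : ℝ) (κ : GX → V) (π : Par) : Prop where
  hd : ADraw H X Y E F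
  /-- the lines are ordered -/
  gx_lt : ∀ i j : ℤ, 0 ≤ i → i < j → j + 3 ≤ π.M → gX X κ i < gX X κ j
  gy_lt : ∀ i j : ℤ, 0 ≤ i → i < j → j + 3 ≤ π.M → gY Y κ i < gY Y κ j
  /-- every unit piece of a row line is contained in one edge between vertices of the frame and
  of the net -/
  row : ∀ x y : ℤ, 0 ≤ x → 0 ≤ y → x + y + π.R + 4 ≤ π.M →
    ∃ p p', p ∈ ZN κ π ∧ p' ∈ ZN κ π ∧ H.Adj p p' ∧ Y p = gY Y κ y ∧ Y p' = gY Y κ y ∧
      X p ≤ gX X κ x ∧ gX X κ (x + 1) ≤ X p'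
  /-- every unit piece of a column line is contained in one edge -/
  col : ∀ x y : ℤ, 0 ≤ x → 0 ≤ y → x + y + π.R + 4 ≤ π.M →
    ∃ p p', p ∈ ZN κ π ∧ p' ∈ ZN κ π ∧ H.Adj p p' ∧ X p = gX X κ x ∧ X p' = gX X κ x ∧
      Y p ≤ gY Y κ y ∧ gY Y κ (y + 1) ≤ Y p'
  /-- the vertices of the net are at the grid points -/
  pos : ∀ x y : ℕ, GN.ok π (.F x y) →
    X (κ (.v (.F x y))) = gX X κ x ∧ Y (κ (.v (.F x y))) = gY Y κ y
  /-- the obstacles -/
  dg : ∀ x y : ℕ, 1 ≤ x → 1 ≤ y → x + y + 5 ≤ π.M → InL π.D (x, y) →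
    H.Adj (κ (.v (.F x y))) (κ (.v (.F (x + 1) (y + 1))))
  /-- the region lies in the cell `NE` -/
  px : 0 < gX X κ 0
  py : 0 < gY Y κ 0
  ne : ∀ i j : ℤ, 0 ≤ i → 0 ≤ j → i + j + 2 * π.R + 5 ≤ π.M → gX X κ i + gY Y κ j < 1

/-- `v` lies in the open cell `(i, j)` -/
def InC (X Y : V → ℝ) (κ : GX → V) (i j : ℤ) (v : V) : Prop :=
  gX X κ i < X v ∧ X v < gX X κ (i + 1) ∧ gY Y κ j < Y v ∧ Y v < gY Y κ (j + 1)

/-- `v` is on the upper left side of the diagonal of the cell `(i, j)` -/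
def UL (X Y : V → ℝ) (κ : GX → V) (i j : ℤ) (v : V) : Prop :=
  (X v - gX X κ i) * (gY Y κ (j + 1) - gY Y κ j) < (Y v - gY Y κ j) * (gX X κ (i + 1) - gX X κ i)

/-- `v` is on the lower right side of the diagonal of the cell `(i, j)` -/
def LR (X Y : V → ℝ) (κ : GX → V) (i j : ℤ) (v : V) : Prop :=
  (Y v - gY Y κ j) * (gX X κ (i + 1) - gX X κ i) < (X v - gX X κ i) * (gY Y κ (j + 1) - gY Y κ j)

/-- the good names -/
def Dk (π : Par) : GN → Prop
  | .T k x y t => π.St k x y ∧ 1 ≤ t ∧ t ≤ 2 * π.l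
  | _ => False

/-- the links between good vertices -/
def GE.isl (π : Par) : GE → Prop
  | .tt k x y t => π.St k x y ∧ 1 ≤ t ∧ t + 1 ≤ 2 * π.l
  | _ => False

/-- the cell of the thread vertex `T k x y t` -/
def tcell (π : Par) (k x y t : ℕ) : ℤ × ℤ :=
  ((π.pp k x y (t / 2)).1, if t = 0 then (y : ℤ) else (π.qq k x y ((t - 1) / 2)).2)

end Pool.Agent.Helper58.DG3
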