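import Pool.Agent.Helper82.DG.Base
import Mathlib.Data.Nat.Fib.Basic

/-!
# Threads: names, edges and the local data

The frame is the frame of `Helper74/DG2/Base.lean` with only the vertical and horizontal lines
`c < 3` and `c = M - 1` long (`Lg`); the lines `3 ≤ c ≤ M - 2` are short and end in the row
(column) `1`, between the lines `1` and `2`.

The net: the grid points `(x, y)` of `InS D` carry the vertices `F x y`; consecutive ones on a
line are joined; the column line `x` starts at the entry `D (x + 1) 0`, the row line `y` at the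
entry `D 0 (y + 1)`; for `(x, y)` in the lattice `InL D` the vertices `F x y`, `F (x+1) (y+1)`
are joined (obstacle).

The threads: `T k x y t`, class `k`, start obstacle `(x, y)`, `0 ≤ t ≤ 2 l + 1`; the first vertex
is joined to `F (x + 1) (y + 1)`, the last one to the vertex at `p_l`.
-/

set_option autoImplicit false

namespace Pool.Agent.Helper58.DG3

open Pool.Agent.Helper18.RAC
open Pool.Agent.Helper82.DG (NE SE NW SW)

/-- the lattice `x = c y mod R`, `R = fib (2 D + 2)`, `c = fib (2 D)` -/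
def InL (D : ℕ) (p : ℤ × ℤ) : Prop :=
  (Nat.fib (2 * D + 2) : ℤ) ∣ p.1 - (Nat.fib (2 * D) : ℤ) * p.2

/-- the grid points which carry vertices of the net -/
def InS (D : ℕ) (p : ℤ × ℤ) : Prop :=
  InL D p ∨ InL D (p.1 - 1, p.2 - 1) ∨ InL D (p.1 - 2, p.2 - 2)

/-- the parameters: `D` (classes `D < 2 k`, `k + 2 ≤ D`), `l` (the threads have `2 l + 2` vertices),
`M` (there are `2 M` anchors on each side) -/
structure Par where
  D : ℕ
  l : ℕ
  M : ℕ

namespace Par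

/-- the period -/
def R (π : Par) : ℕ := Nat.fib (2 * π.D + 2)

/-- the vector `f = (fx k, - fy k)` of the class `k` -/
def fx (_ : Par) (k : ℕ) : ℕ := Nat.fib (2 * k + 1)

def fy (π : Par) (k : ℕ) : ℕ := Nat.fib (2 * (π.D - k) + 1)

/-- margin -/
def G (π : Par) : ℕ := (4 * π.l + 8) * π.R

/-- classes -/
def Cl (π : Par) (k : ℕ) : Prop := π.D < 2 * k ∧ k + 2 ≤ π.D

/-- start obstacles of the threads of class `k` -/
def St (π : Par) (k x y : ℕ) : Prop :=
  π.Cl k ∧ InL π.D (x, y) ∧ π.G ≤ x ∧ π.G ≤ y ∧ x + y + π.G ≤ π.M ∧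
    (x / (π.R - 2 * π.fx k)) % (π.l + 1) = 0

/-- the base `p_m` of the `m`-th vertical strip of the thread of class `k` which starts at
`(x, y)` -/
def pp (π : Par) (k x y m : ℕ) : ℤ × ℤ :=
  ((x : ℤ) + m * ((π.R : ℤ) - 2 * π.fx k), (y : ℤ) - π.R - m * ((π.R : ℤ) - 2 * π.fy k))

/-- the base `q_m` of the `m`-th horizontal strip -/
def qq (π : Par) (k x y m : ℕ) : ℤ × ℤ :=
  ((π.pp k x y m).1 - π.fx k, (π.pp k x y m).2 + π.fy k)

end Par

/-- long lines -/
def Lg (M c : ℕ) : Prop := c < 3 ∨ c + 1 = M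

/-- names of the vertices -/
inductive GN
  | P (σ : Bool) (j : ℕ)
  | U (σ : Bool) (c : ℕ)
  | C (σ : Bool) (j : ℕ) (ε : Bool)
  | Q (ε : Bool)
  | D (c r : ℕ)
  | F (x y : ℕ)
  | T (k x y t : ℕ)
  deriving DecidableEq

/-- the names which are used -/
def GN.ok (π : Par) : GN → Prop
  | .P _ j => j < 2 * π.M
  | .U _ c => c < π.M
  | .C _ j _ => j + 1 < 2 * π.M
  | .Q _ => True
  | .D c r => c < π.M ∧ r < π.M ∧ (c = 0 ∨ r = 0)
  | .F x y => 1 ≤ x ∧ 1 ≤ y ∧ x + y + 3 ≤ π.M ∧ InS π.D (x, y)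
  | .T k x y t => π.St k x y ∧ t ≤ 2 * π.l + 1

/-- names of the frame and of the net -/
def GN.nt : GN → Prop
  | .T _ _ _ _ => False
  | _ => True

/-- the boundary vertices with the two indices exchanged if `σ = true` -/
def GN.D' (σ : Bool) (c r : ℕ) : GN := cond σ (.D r c) (.D c r)

/-- the net vertex number `x` of the line `y`: a column for `σ = false`, a row for `σ = true` -/
def GN.F' (σ : Bool) (x y : ℕ) : GN := cond σ (.F x y) (.F y x)

/-- the same with the entry for `x = 0` -/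
def GN.lo (σ : Bool) (x y : ℕ) : GN := if x = 0 then .D' σ (y + 1) 0 else .F' σ x y

/-- the point number `x` of the line `y` -/
def pt (σ : Bool) (x y : ℕ) : ℤ × ℤ := cond σ ((x : ℤ), (y : ℤ)) ((y : ℤ), (x : ℤ))

/-- corners and names -/
inductive GX
  | X (σ : Bool)
  | Y (σ : Bool)
  | v (x : GN)
  deriving DecidableEq

/-- codes of the edges -/
inductive GE
  | yp (σ : Bool) (j : ℕ)
  | xu (σ : Bool) (c : ℕ)
  | xp (σ : Bool)
  | up (σ : Bool) (c : ℕ)
  | pd (σ : Bool) (c : ℕ)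
  | dd (σ : Bool) (c : ℕ)
  | pp (σ : Bool) (j : ℕ)
  | pc (σ : Bool) (j : ℕ) (ε : Bool)
  | pc' (σ : Bool) (j : ℕ) (ε : Bool)
  | cc (σ : Bool) (j : ℕ)
  | uu
  | uq (σ : Bool) (ε : Bool)
  | qq
  | dr (σ : Bool) (ε : Bool)
  | uw (σ : Bool) (c : ℕ)
  | nl (σ : Bool) (x x' y : ℕ)
  | dg (x y : ℕ)
  | ts (k x y : ℕ)
  | tt (k x y t : ℕ)
  | te (k x y : ℕ)
  deriving DecidableEq

/-- valid codes -/
def GE.valid (π : Par) : GE → Prop
  | .yp _ j => j < 2 * π.M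
  | .xu _ c => c < π.M ∧ Lg π.M c
  | .xp _ => True
  | .up _ c => c < π.M
  | .pd _ c => c < π.M
  | .dd _ c => c + 1 < π.M
  | .pp _ j => j + 1 < 2 * π.M
  | .pc _ j _ => j + 1 < 2 * π.M
  | .pc' _ j _ => j + 1 < 2 * π.M
  | .cc _ j => j + 1 < 2 * π.M
  | .uu => True
  | .uq _ _ => True
  | .qq => True
  | .dr _ _ => True
  | .uw _ c => 3 ≤ c ∧ c + 2 ≤ π.M
  | .nl σ x x' y => 1 ≤ y ∧ x < x' ∧ x' + y + 3 ≤ π.M ∧ InS π.D (pt σ x' y) ∧
      (x = 0 ∨ InS π.D (pt σ x y)) ∧ ∀ z, x < z → z < x' → ¬ InS π.D (pt σ z y)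
  | .dg x y => 1 ≤ x ∧ 1 ≤ y ∧ x + y + 5 ≤ π.M ∧ InL π.D (x, y)
  | .ts k x y => π.St k x y
  | .tt k x y t => π.St k x y ∧ t ≤ 2 * π.l
  | .te k x y => π.St k x y

/-- codes of the frame and of the net -/
def GE.nt : GE → Prop
  | .ts _ _ _ => False
  | .tt _ _ _ _ => False
  | .te _ _ _ => False
  | _ => True

/-- the ends of the edges -/
def GE.ends (π : Par) : GE → GX × GX
  | .yp σ j => (.Y σ, .v (.P σ j))
  | .xu σ c => (.X σ, .v (.U σ c))
  | .xp σ => (.X (!σ), .v (.P σ (2 * π.M - 1)))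
  | .up σ c => (.v (.U σ c), .v (.P σ (2 * c)))
  | .pd σ c => (.v (.P σ (2 * c + 1)), .v (.D' σ c 0))
  | .dd σ c => (.v (.D' σ c 0), .v (.D' σ (c + 1) 0))
  | .pp σ j => (.v (.P σ j), .v (.P σ (j + 1)))
  | .pc σ j ε => (.v (.P σ j), .v (.C σ j ε))
  | .pc' σ j ε => (.v (.P σ (j + 1)), .v (.C σ j ε))
  | .cc σ j => (.v (.C σ j false), .v (.C σ j true))
  | .uu => (.v (.U false (π.M - 1)), .v (.U true (π.M - 1)))
  | .uq σ ε => (.v (.U σ (π.M - 1)), .v (.Q ε))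
  | .qq => (.v (.Q false), .v (.Q true))
  | .dr σ ε => (.v (.D' σ (π.M - 1) 0), .v (.U (!σ) (cond ε 1 0)))
  | .uw σ c => (.v (if c = 3 then .D' σ 0 1 else .U σ (c - 1)), .v (.U σ c))
  | .nl σ x x' y => (.v (.lo σ x y), .v (.F' σ x' y))
  | .dg x y => (.v (.F x y), .v (.F (x + 1) (y + 1)))
  | .ts k x y => (.v (.F (x + 1) (y + 1)), .v (.T k x y 0))
  | .tt k x y t => (.v (.T k x y t), .v (.T k x y (t + 1)))
  | .te k x y => (.v (.T k x y (2 * π.l + 1)),
      .v (.F (π.pp k x y π.l).1.toNat (π.pp k x y π.l).2.toNat))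

variable {V : Type*}

/-- the edges of the grid whose corners and vertices are given by `κ` -/
def gridE (κ : GX → V) (π : Par) : Set (Sym2 V) :=
  {e | ∃ c : GE, c.valid π ∧ e = s(κ (c.ends π).1, κ (c.ends π).2)}

/-- the graph `G` contains the frame and the net `κ` -/
structure HasNet (G : SimpleGraph V) (κ : GX → V) (π : Par) : Prop where
  hD : 2 ≤ π.D
  hM : 8 ≤ π.M
  adj : ∀ c : GE, c.valid π → c.nt → G.Adj (κ (c.ends π).1) (κ (c.ends π).2)
  inj : ∀ x y : GN, x.ok π → y.ok π → x.nt → y.nt → κ (.v x) = κ (.v y) → x = y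
  nX : ∀ (x : GN) (σ : Bool), x.ok π → x.nt → κ (.v x) ≠ κ (.X σ)
  nY : ∀ (x : GN) (σ : Bool), x.ok π → x.nt → κ (.v x) ≠ κ (.Y σ)

/-- the graph `G` contains the frame, the net and the threads `κ` -/
structure HasGrid (G : SimpleGraph V) (κ : GX → V) (π : Par) : Prop where
  hD : 2 ≤ π.D
  hM : 8 ≤ π.M
  adj : ∀ c : GE, c.valid π → G.Adj (κ (c.ends π).1) (κ (c.ends π).2)
  inj : ∀ x y : GN, x.ok π → y.ok π → κ (.v x) = κ (.v y) → x = y
  nX : ∀ (x : GN) (σ : Bool), x.ok π → κ (.v x) ≠ κ (.X σ)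
  nY : ∀ (x : GN) (σ : Bool), x.ok π → κ (.v x) ≠ κ (.Y σ)

theorem HasGrid.net {G : SimpleGraph V} {κ : GX → V} {π : Par} (h : HasGrid G κ π) :
    HasNet G κ π :=
  ⟨h.hD, h.hM, fun c hc _ => h.adj c hc, fun x y hx hy _ _ => h.inj x y hx hy,
    fun x σ hx _ => h.nX x σ hx, fun x σ hx _ => h.nY x σ hx⟩

theorem HasNet.mono {G H : SimpleGraph V} {κ : GX → V} {π : Par} (h : HasNet G κ π)
    (hle : G ≤ H) : HasNet H κ π :=
  ⟨h.hD, h.hM, fun c hc hn => hle (h.adj c hc hn), h.inj, h.nX, h.nY⟩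

theorem HasGrid.mono {G H : SimpleGraph V} {κ : GX → V} {π : Par} (h : HasGrid G κ π)
    (hle : G ≤ H) : HasGrid H κ π :=
  ⟨h.hD, h.hM, fun c hc => hle (h.adj c hc), h.inj, h.nX, h.nY⟩

/-- exchange of the two axes (only used for names with `nt`) -/
def GN.swap : GN → GN
  | .P σ j => .P (!σ) j
  | .U σ c => .U (!σ) c
  | .C σ j ε => .C (!σ) j ε
  | .Q ε => .Q ε
  | .D c r => .D r c
  | .F x y => .F y x
  | .T k x y t => .T k x y t

/-- exchange of the two axes -/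
def GX.swap : GX → GX
  | .X σ => .X (!σ)
  | .Y σ => .Y (!σ)
  | .v x => .v x.swap

/-- exchange of the two axes (only used for codes with `nt`) -/
def GE.swap : GE → GE
  | .yp σ j => .yp (!σ) j
  | .xu σ c => .xu (!σ) c
  | .xp σ => .xp (!σ)
  | .up σ c => .up (!σ) c
  | .pd σ c => .pd (!σ) c
  | .dd σ c => .dd (!σ) c
  | .pp σ j => .pp (!σ) j
  | .pc σ j ε => .pc (!σ) j ε
  | .pc' σ j ε => .pc' (!σ) j ε
  | .cc σ j => .cc (!σ) j
  | .uu => .uu
  | .uq σ ε => .uq (!σ) ε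
  | .qq => .qq
  | .dr σ ε => .dr (!σ) ε
  | .uw σ c => .uw (!σ) c
  | .nl σ x x' y => .nl (!σ) x x' y
  | .dg x y => .dg y x
  | .ts k x y => .ts k x y
  | .tt k x y t => .tt k x y t
  | .te k x y => .te k x y

/-- the drawing of a grid near a kite in adapted coordinates: the frame of the grid lies in the
cells of the kite -/
structure GDraw (H : SimpleGraph V) (X Y : V → ℝ) (E F a b : ℝ) (κ : GX → V) (π : Par) :
    Prop where
  hd : ADraw H X Y E F
  hk : KN H X Y a b (κ (.X true)) (κ (.Y true)) (κ (.X false)) (κ (.Y false))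
  hs : H.Adj (κ (.Y true)) (κ (.Y false))
  hg : HasNet H κ π
  hU : ∀ σ c, c < π.M → Lg π.M c → NE X Y (κ (.v (.U σ c)))
  hP0 : ∀ j, j < 2 * π.M → SE X Y b (κ (.v (.P false j)))
  hC0 : ∀ j ε, j + 1 < 2 * π.M → SE X Y b (κ (.v (.C false j ε)))
  hP1 : ∀ j, j < 2 * π.M → NW X Y a (κ (.v (.P true j)))
  hC1 : ∀ j ε, j + 1 < 2 * π.M → NW X Y a (κ (.v (.C true j ε)))

end Pool.Agent.Helper58.DG3
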