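import Pool.Agent.Helper58.DG3.Net
import Pool.Agent.Helper49.DG3.Names
import Pool.Agent.Helper82.DG.Part3

/-!
# Threads: definitions of part 3 (good kites, the layout of the graph)
-/

set_option autoImplicit false

namespace Pool.Agent.Helper58.DG3

open Pool.Agent.Helper18.RAC Complex
open Pool.Agent.Helper82.DG (NE SE NW SW Fr CoreH)

variable {V : Type*}

/-- the corners of a grid -/
def Cor (κ : GX → V) (y : V) : Prop :=
  y = κ (.X false) ∨ y = κ (.X true) ∨ y = κ (.Y false) ∨ y = κ (.Y true)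

/-- an open cell `A` of the kite `κ` with the corners `x`, `y`; the third corner is the crossing
point of the diagonals -/
structure KCell (H : SimpleGraph V) (f : V → ℂ) (κ : GX → V) (A : Set ℂ) (x y : V) : Prop where
  op : IsOpen A
  pc : IsPreconnected A
  hx : f x ∈ frontier A
  hy : f y ∈ frontier A
  fr : ∀ z ∈ frontier A, ∃ p p', Cor κ p ∧ Cor κ p' ∧ H.Adj p p' ∧ z ∈ segment ℝ (f p) (f p')
  fv : ∀ v, f v ∈ frontier A → v = x ∨ v = y
  thr : ∀ p p' z, H.Adj p p' → z ∈ segment ℝ (f p) (f p') → z ∈ A → f p ∈ A ∨ f p' ∈ A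

/-- a good kite with the cells `A₀` (between `X false` and `X true`), `A₁` (between `X true` and
`Y false`) and `A₂` (between `X false` and `Y true`) -/
structure GoodK (H : SimpleGraph V) (f : V → ℂ) (a b : V) (κ : GX → V) (π : Par)
    (A₀ A₁ A₂ : Set ℂ) : Prop where
  c0 : KCell H f κ A₀ (κ (.X false)) (κ (.X true))
  c1 : KCell H f κ A₁ (κ (.X true)) (κ (.Y false))
  c2 : KCell H f κ A₂ (κ (.X false)) (κ (.Y true))
  core : ∀ v y, (f v ∈ A₀ ∨ f v ∈ A₁ ∨ f v ∈ A₂) → H.Adj v y → CoreH H a b y → Cor κ y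
  mem : ∀ x, Dk π x → f (κ (.v x)) ∈ A₀
  nbr : ∀ x v, Dk π x → H.Adj (κ (.v x)) v → f v ∈ A₀ ∨ f v ∈ A₁ ∨ f v ∈ A₂
  dd : ∀ x y, Dk π x → Dk π y → H.Adj (κ (.v x)) (κ (.v y)) →
    ∃ c : GE, c.isl π ∧ s(κ (.v x), κ (.v y)) = s(κ (c.ends π).1, κ (c.ends π).2)
  cnt : ∀ v, ∃ g : GN → Fin 9, ∀ x y, Dk π x → Dk π y → H.Adj (κ (.v x)) v →
    H.Adj (κ (.v y)) v → g x = g y → x = y

/-- the layout of the graph: hubs `a`, `b`, the path `p 0, …, p (m - 1)` and `K` grids with the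
parameters `π`; the grid `i` is attached to the kite with the path vertices `p i`, `p (i + 1)`,
`p (i + 2)` -/
structure LayD (a b : V) (p : ℕ → V) (κ : ℕ → GX → V) (m K : ℕ) (π : Par) : Prop where
  ab : a ≠ b
  pa : ∀ j < m, p j ≠ a
  pb : ∀ j < m, p j ≠ b
  pinj : ∀ i < m, ∀ j < m, p i = p j → i = j
  hm : K + 2 ≤ m
  hD : 4 ≤ π.D
  hM : 8 ≤ π.M
  kN : ∀ i < K, κ i (.X false) = if i % 2 = 0 then b else a
  kE : ∀ i < K, κ i (.X true) = p (i + 2)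
  kW : ∀ i < K, κ i (.Y true) = p i
  kS : ∀ i < K, κ i (.Y false) = p (i + 1)
  nc : ∀ i < K, ∀ x : GN, x.ok π →
    κ i (.v x) ≠ a ∧ κ i (.v x) ≠ b ∧ ∀ j < m, κ i (.v x) ≠ p j
  kinj : ∀ i < K, ∀ i' < K, ∀ x y : GN, x.ok π → y.ok π → κ i (.v x) = κ i' (.v y) →
    i = i' ∧ x = y
  cov : ∀ v, v = a ∨ v = b ∨ (∃ j < m, v = p j) ∨ ∃ i < K, ∃ x : GN, x.ok π ∧ v = κ i (.v x)

/-- the graph with the first `t` grids -/
def GDt (a b : V) (p : ℕ → V) (κ : ℕ → GX → V) (m : ℕ) (π : Par) (t : ℕ) : SimpleGraph V :=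
  SimpleGraph.fromEdgeSet (coreE a b p m ∪ {e | ∃ i < t, e ∈ gridE (κ i) π})

end Pool.Agent.Helper58.DG3
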